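import Mathlib

/-!
# Tensor products of objects and the endomorphisms given by permutations of the factors
-/

set_option autoImplicit false

namespace Pool.Agent.Helper59.SD

open CategoryTheory MonoidalCategory

universe t v u w

variable {C : Type u} [Category.{v} C] [MonoidalCategory C] {ι : Type t}

/-- The tensor product `A i₁ ⊗ (A i₂ ⊗ (⋯ ⊗ 𝟙))` of the objects `A i` over the word `i₁ i₂ …`. -/
@[reducible] def word (A : ι → C) : List ι → C
  | [] => 𝟙_ C
  | i :: w => A i ⊗ word A w

/-- The exchange of the first two factors of a tensor product (with the rule of signs of the
symmetric monoidal category `C`). -/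
def exchange [BraidedCategory C] (A : ι → C) (i j : ι) (w : List ι) :
    word A (i :: j :: w) ⟶ word A (j :: i :: w) :=
  (α_ (A i) (A j) (word A w)).inv ≫ (β_ (A i) (A j)).hom ▷ word A w ≫
    (α_ (A j) (A i) (word A w)).hom

/-- The `F`-linear combinations of the permutations of the factors: the smallest class of morphisms
between the tensor products which contains the exchanges of two neighbouring factors and is stable
under compositions and `F`-linear combinations. For one word `w` in which the letter `i` occurs `n_i`
times these are the endomorphisms of `word A w` in the image of the group algebra over `F` of the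
product of the symmetric groups on `n_i` letters. -/
inductive IsPerm (F : Type w) [Field F] [BraidedCategory C] [Preadditive C] [Linear F C]
    (A : ι → C) : ∀ {w w' : List ι}, (word A w ⟶ word A w') → Prop
  | id (w : List ι) : IsPerm F A (𝟙 (word A w))
  | exchange (i j : ι) (w : List ι) : IsPerm F A (exchange A i j w)
  | cons (i : ι) {w w' : List ι} (f : word A w ⟶ word A w') : IsPerm F A f →
      IsPerm F A (w := i :: w) (w' := i :: w') (A i ◁ f)
  | comp {w w' w'' : List ι} (f : word A w ⟶ word A w') (g : word A w' ⟶ word A w'') :
      IsPerm F A f → IsPerm F A g → IsPerm F A (f ≫ g)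
  | add {w w' : List ι} (f g : word A w ⟶ word A w') :
      IsPerm F A f → IsPerm F A g → IsPerm F A (f + g)
  | smul (c : F) {w w' : List ι} (f : word A w ⟶ word A w') :
      IsPerm F A f → IsPerm F A (c • f)

end Pool.Agent.Helper59.SD
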