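import Mathlib

/-!
# Linear algebra for the descent along Schur functors
-/

set_option autoImplicit false

namespace Pool.Agent.Helper59.SD

open Polynomial Module

universe w

variable {K : Type w} [Field K]

/-- The polynomial `X (X - 1) ⋯ (X - n)`. -/
noncomputable def ff (K : Type w) [Field K] (n : ℕ) : K[X] :=
  ∏ k ∈ Finset.range (n + 1), (X - C (k : K))

theorem ff_eval (n : ℕ) (μ : K) : (ff K n).eval μ = 0 ↔ ∃ k ≤ n, μ = k := by
  rw [ff, Polynomial.eval_prod, Finset.prod_eq_zero_iff]
  constructor
  · rintro ⟨k, hk, h⟩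
    refine ⟨k, Nat.lt_succ_iff.1 (Finset.mem_range.1 hk), ?_⟩
    simpa [sub_eq_zero] using h
  · rintro ⟨k, hk, h⟩
    exact ⟨k, Finset.mem_range.2 (Nat.lt_succ_of_le hk), by simp [h]⟩

theorem nat_trace_algClosed [IsAlgClosed K] {W : Type w} [AddCommGroup W] [Module K W]
    [Module.Finite K W] (n : ℕ) (N : Module.End K W) (h : aeval N (ff K n) = 0) :
    ∃ c : ℕ, LinearMap.trace K W N = c := by
  rw [Module.End.trace_eq_sum_roots_charpoly_of_splits (IsAlgClosed.splits _)]
  have hr : ∀ μ ∈ N.charpoly.roots, ∃ k : ℕ, μ = k := by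
    intro μ hμ
    have h1 : N.HasEigenvalue μ := by
      rw [Module.End.hasEigenvalue_iff_isRoot_charpoly]
      exact (Polynomial.mem_roots'.1 hμ).2
    obtain ⟨v, hv⟩ := h1.exists_hasEigenvector
    have h2 := Module.End.aeval_apply_of_hasEigenvector (p := ff K n) hv
    rw [h, LinearMap.zero_apply] at h2
    have h3 : (ff K n).eval μ = 0 := by
      rcases smul_eq_zero.1 h2.symm with h4 | h4
      · exact h4
      · exact absurd h4 hv.2
    obtain ⟨k, -, hk⟩ := (ff_eval n μ).1 h3
    exact ⟨k, hk⟩
  generalize N.charpoly.roots = s at hr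
  induction s using Multiset.induction_on with
  | empty => exact ⟨0, by simp⟩
  | cons a s ih =>
    obtain ⟨c, hc⟩ := ih fun μ hμ => hr μ (Multiset.mem_cons_of_mem hμ)
    obtain ⟨k, hk⟩ := hr a (Multiset.mem_cons_self a s)
    exact ⟨k + c, by rw [Multiset.sum_cons, hc, hk]; push_cast; ring⟩

theorem nat_trace [CharZero K] {W : Type w} [AddCommGroup W] [Module K W]
    [Module.Finite K W] (n : ℕ) (N : Module.End K W) (h : aeval N (ff K n) = 0) :
    ∃ c : ℕ, LinearMap.trace K W N = c := by
  let L := AlgebraicClosure K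
  have h1 : aeval (N.baseChange L : Module.End L (TensorProduct K L W)) (ff L n) = 0 := by
    have h2 : ff L n = (ff K n).map (algebraMap K L) := by
      rw [ff, ff, Polynomial.map_prod]
      refine Finset.prod_congr rfl fun k _ => ?_
      rw [Polynomial.map_sub, Polynomial.map_X, Polynomial.map_C]
      congr 2
    have h3 : ∀ p : K[X], aeval (N.baseChange L : Module.End L (TensorProduct K L W))
        (p.map (algebraMap K L)) = (aeval N p).baseChange L := by
      intro p
      induction p using Polynomial.induction_on' with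
      | add p q hp hq => rw [Polynomial.map_add, map_add, hp, hq, map_add, LinearMap.baseChange_add]
      | monomial k a =>
        rw [Polynomial.map_monomial, aeval_monomial, aeval_monomial]
        ext x
        simp [← LinearMap.baseChange_pow]
    rw [h2, h3, h, LinearMap.baseChange_zero]
  obtain ⟨c, hc⟩ := nat_trace_algClosed n _ h1
  refine ⟨c, ?_⟩
  rw [LinearMap.trace_baseChange] at hc
  apply (algebraMap K L).injective
  rw [hc]; simp

/-- Evaluation of a polynomial at the sum of an idempotent and a commuting element. -/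
theorem aeval_idem_add {R : Type w} [Ring R] [Algebra K R] (E M : R) (hE : E * E = E)
    (hEM : E * M = M * E) (p : K[X]) :
    aeval (E + M) p = (1 - E) * aeval M p + E * aeval M (p.comp (X + 1)) := by
  have hcomm : ∀ q : K[X], E * aeval M q = aeval M q * E := by
    intro q
    induction q using Polynomial.induction_on' with
    | add p q hp hq => rw [map_add, mul_add, add_mul, hp, hq]
    | monomial k a =>
      rw [aeval_monomial]
      exact ((Algebra.commute_algebraMap_right a E).mul_right
        (Commute.pow_right hEM k)).eq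
  induction p using Polynomial.induction_on' with
  | add p q hp hq =>
    rw [map_add, hp, hq, map_add, Polynomial.add_comp, map_add]
    noncomm_ring
  | monomial k a =>
    induction k with
    | zero =>
      rw [Polynomial.monomial_zero_left]
      simp only [aeval_C, C_comp]
      noncomm_ring
    | succ k ih =>
      have e1 : (Polynomial.monomial (k + 1) a : K[X]) = Polynomial.monomial k a * X := by
        rw [Polynomial.monomial_mul_X]
      rw [e1, map_mul, ih, aeval_X, map_mul, aeval_X, Polynomial.mul_comp, X_comp, map_mul]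
      simp only [map_add, map_one, aeval_X]
      have h2 := hcomm (((Polynomial.monomial k) a).comp (X + 1))
      have h1 := hcomm ((Polynomial.monomial k) a)
      generalize aeval M (((Polynomial.monomial k) a).comp (X + 1)) = Q at *
      generalize aeval M ((Polynomial.monomial k) a) = P at *
      have e2 : (1 - E) * P * E = 0 := by
        rw [mul_assoc, ← h1, ← mul_assoc, sub_mul, one_mul, hE, sub_self, zero_mul]
      have e3 : E * Q * E = E * Q := by rw [mul_assoc, ← h2, ← mul_assoc, hE]
      calc ((1 - E) * P + E * Q) * (E + M)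
          = (1 - E) * P * E + (1 - E) * P * M + (E * Q * E + E * Q * M) := by noncomm_ring
        _ = (1 - E) * (P * M) + E * (Q * (M + 1)) := by rw [e2, e3]; noncomm_ring

theorem ff_succ (n : ℕ) : ff K (n + 1) = ff K n * (X - C ((n + 1 : ℕ) : K)) := by
  rw [ff, ff, Finset.prod_range_succ]

theorem ff_comp (n : ℕ) : (ff K (n + 1)).comp (X + 1) = (X + 1) * ff K n := by
  rw [ff, ff, Finset.prod_range_succ', Polynomial.mul_comp, Polynomial.prod_comp]
  rw [mul_comm]
  congr 1
  · simp
  · refine Finset.prod_congr rfl fun k _ => ?_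
    simp only [sub_comp, X_comp, C_comp]
    push_cast
    simp only [map_add, map_one]
    ring

/-- The sum of an idempotent and a commuting operator with eigenvalues `0, …, n` has the
eigenvalues `0, …, n + 1`. -/
theorem ff_idem_add {R : Type w} [Ring R] [Algebra K R] (E M : R) (hE : E * E = E)
    (hEM : E * M = M * E) (n : ℕ) (h : aeval M (ff K n) = 0) :
    aeval (E + M) (ff K (n + 1)) = 0 := by
  rw [aeval_idem_add E M hE hEM, ff_comp, ff_succ, map_mul, map_mul, h]
  simp

theorem ff_succ_of {R : Type w} [Ring R] [Algebra K R] (M : R) (n : ℕ)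
    (h : aeval M (ff K n) = 0) : aeval M (ff K (n + 1)) = 0 := by
  rw [ff_succ, map_mul, h, zero_mul]

/-- The compression by a commuting idempotent. -/
theorem ff_compress {R : Type w} [Ring R] [Algebra K R] (T N : R) (hT : T * T = T)
    (hTN : T * N = N * T) (n : ℕ) (h : aeval N (ff K n) = 0) :
    aeval (T * N) (ff K n) = 0 := by
  have h0 : ∀ q : K[X], aeval (T * N) (X * q) = T * aeval N (X * q) := by
    intro q
    induction q using Polynomial.induction_on' with
    | add p q hp hq => rw [mul_add, map_add, hp, hq, map_add, mul_add]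
    | monomial k a =>
      have hpow : (T * N) ^ (k + 1) = T * N ^ (k + 1) := by
        rw [Commute.mul_pow hTN]
        congr 1
        exact IsIdempotentElem.pow_succ_eq k hT
      rw [X_mul_monomial, aeval_monomial, aeval_monomial, hpow, ← mul_assoc, ← mul_assoc,
        Algebra.commutes]
  have h1 : ff K n = X * ∏ k ∈ Finset.range n, (X - C ((k + 1 : ℕ) : K)) := by
    rw [ff, Finset.prod_range_succ', mul_comm]
    simp
  rw [h1] at h ⊢
  rw [h0, h, mul_zero]

section

variable {V : Type w} [AddCommGroup V] [Module K V]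

/-- The projection to the even part. -/
noncomputable def evenProj (π : V →ₗ[K] V) : V →ₗ[K] V := (2 : K)⁻¹ • (LinearMap.id + π)

/-- The projection to the odd part. -/
noncomputable def oddProj (π : V →ₗ[K] V) : V →ₗ[K] V := (2 : K)⁻¹ • (LinearMap.id - π)

theorem evenProj_apply (π : V →ₗ[K] V) (x : V) : evenProj π x = (2 : K)⁻¹ • (x + π x) := rfl

theorem oddProj_apply (π : V →ₗ[K] V) (x : V) : oddProj π x = (2 : K)⁻¹ • (x - π x) := rfl

variable (h2 : (2 : K) ≠ 0) (π : V →ₗ[K] V) (hπ : ∀ x, π (π x) = x)

include h2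

theorem even_add_odd (x : V) : evenProj π x + oddProj π x = x := by
  rw [evenProj_apply, oddProj_apply]
  have : (2 : K)⁻¹ • (x + π x) + (2 : K)⁻¹ • (x - π x) = ((2 : K)⁻¹ * 2) • x := by module
  rw [this, inv_mul_cancel₀ h2, one_smul]

theorem even_sub_odd (x : V) : evenProj π x - oddProj π x = π x := by
  rw [evenProj_apply, oddProj_apply]
  have : (2 : K)⁻¹ • (x + π x) - (2 : K)⁻¹ • (x - π x) = ((2 : K)⁻¹ * 2) • π x := by module
  rw [this, inv_mul_cancel₀ h2, one_smul]

omit h2 in
theorem pi_even (hπ : ∀ x, π (π x) = x) (x : V) : π (evenProj π x) = evenProj π x := by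
  rw [evenProj_apply, map_smul, map_add, hπ, add_comm]

omit h2 in
theorem pi_odd (hπ : ∀ x, π (π x) = x) (x : V) : π (oddProj π x) = -oddProj π x := by
  rw [oddProj_apply, map_smul, map_sub, hπ, ← smul_neg, neg_sub]

theorem even_of_pi (x : V) (hx : π x = x) : evenProj π x = x := by
  rw [evenProj_apply, hx]
  have : (2 : K)⁻¹ • (x + x) = ((2 : K)⁻¹ * 2) • x := by module
  rw [this, inv_mul_cancel₀ h2, one_smul]

theorem odd_of_pi (x : V) (hx : π x = -x) : oddProj π x = x := by
  rw [oddProj_apply, hx]
  have : (2 : K)⁻¹ • (x - -x) = ((2 : K)⁻¹ * 2) • x := by module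
  rw [this, inv_mul_cancel₀ h2, one_smul]

omit h2 in
theorem even_of_neg (x : V) (hx : π x = -x) : evenProj π x = 0 := by
  rw [evenProj_apply, hx, add_neg_cancel, smul_zero]

omit h2 in
theorem odd_of_fix (x : V) (hx : π x = x) : oddProj π x = 0 := by
  rw [oddProj_apply, hx, sub_self, smul_zero]

include hπ

/-- The scalar on the part on which the parity operator is the sign `s`. -/
theorem schur_aux (s : K) (hs : s * s = 1) (Y : V →ₗ[K] V)
    (hc : ∀ X : V →ₗ[K] V, (∀ x, X (π x) = π (X x)) → ∀ x, Y (X x) = X (Y x)) :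
    ∃ p : K, ∀ x, π x = s • x → Y x = p • x := by
  by_cases h : ∃ v0, π v0 = s • v0 ∧ v0 ≠ 0
  · obtain ⟨v0, hv0, hne⟩ := h
    obtain ⟨f0, hf0⟩ : ∃ f : Module.Dual K V, f v0 ≠ 0 := by
      by_contra hcon
      push Not at hcon
      exact hne ((Module.forall_dual_apply_eq_zero_iff K v0).1 hcon)
    let P : V →ₗ[K] V := (2 : K)⁻¹ • (LinearMap.id + s • π)
    have hP : ∀ x, P x = (2 : K)⁻¹ • (x + s • π x) := fun x => rfl
    let f : V →ₗ[K] K := (f0 v0)⁻¹ • (f0 ∘ₗ P)
    have hf : ∀ x, f x = (f0 v0)⁻¹ * f0 (P x) := fun x => rfl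
    have hf1 : f v0 = 1 := by
      rw [hf, hP, hv0, smul_smul, hs, one_smul]
      have : (2 : K)⁻¹ • (v0 + v0) = ((2 : K)⁻¹ * 2) • v0 := by module
      rw [this, inv_mul_cancel₀ h2, one_smul, inv_mul_cancel₀ hf0]
    have hfπ : ∀ x, f (π x) = s * f x := by
      intro x
      have : P (π x) = s • P x := by
        rw [hP, hP, hπ]
        have e : s • (2 : K)⁻¹ • (x + s • π x) = (2 : K)⁻¹ • (s • x + (s * s) • π x) := by module
        rw [e, hs, one_smul, add_comm]
      rw [hf, hf, this, map_smul, smul_eq_mul]
      ring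
    refine ⟨f (Y v0), fun x hx => ?_⟩
    have h3 := hc (f.smulRight x) (fun v => by
      simp only [LinearMap.smulRight_apply]
      rw [hfπ, map_smul, hx, smul_smul, mul_comm]) v0
    simp only [LinearMap.smulRight_apply, hf1, one_smul] at h3
    exact h3
  · push Not at h
    exact ⟨0, fun x hx => by rw [h x hx]; simp⟩

/-- An operator that commutes with all even operators is a combination of the projections to the
even and to the odd part. -/
theorem schur (Y : V →ₗ[K] V)
    (hc : ∀ X : V →ₗ[K] V, (∀ x, X (π x) = π (X x)) → ∀ x, Y (X x) = X (Y x)) :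
    ∃ p q : K, ∀ x, Y x = p • evenProj π x + q • oddProj π x := by
  obtain ⟨p, hp⟩ := schur_aux h2 π hπ 1 (one_mul 1) Y hc
  obtain ⟨q, hq⟩ := schur_aux h2 π hπ (-1) (by ring) Y hc
  refine ⟨p, q, fun x => ?_⟩
  conv_lhs => rw [← even_add_odd h2 π x]
  rw [map_add, hp _ (by rw [pi_even π hπ, one_smul]),
    hq _ (by rw [pi_odd π hπ, neg_one_smul])]

end

end Pool.Agent.Helper59.SD
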