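import Pool.Graph.R_pool_sql_team_seeded_bc36138e.Results.MP_eadf0f_ag.SquareDescent
import Pool.Agent.Helper59.SD.Defs
import Pool.Agent.Helper59.SD.LA

/-!
# Contractions of endomorphisms of tensor products
-/

set_option autoImplicit false

namespace Pool.Agent.Helper59.SD

open CategoryTheory MonoidalCategory TensorProduct
open Pool.Agent.Results.MP_eadf0f_ag.TensorDescent

universe w v u t

variable {F K : Type w} [Field F] [Field K] [Algebra F K] {C : Type u}
    [Category.{v} C] [Preadditive C] [Linear F C] [MonoidalCategory C] [SymmetricCategory C]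
    (R : SuperRealization F K C)

/-- The Kunneth isomorphism. -/
noncomputable def kun (A B : C) : R.H A ⊗[K] R.H B ≃ₗ[K] R.H (A ⊗ B) :=
  LinearEquiv.ofBijective (TensorProduct.lift (R.mul (A := A) (B := B))) (R.kunneth A B)

theorem kun_tmul {A B : C} (x : R.H A) (y : R.H B) : kun R A B (x ⊗ₜ y) = R.mul x y := by
  simp [kun]

theorem kun_symm_mul {A B : C} (x : R.H A) (y : R.H B) :
    (kun R A B).symm (R.mul x y) = x ⊗ₜ y := by
  rw [← kun_tmul, LinearEquiv.symm_apply_apply]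

/-- The tensor product of two linear maps. -/
noncomputable def tm {A B A' B' : C} (f : R.H A →ₗ[K] R.H A') (g : R.H B →ₗ[K] R.H B') :
    R.H (A ⊗ B) →ₗ[K] R.H (A' ⊗ B') :=
  (kun R A' B').toLinearMap ∘ₗ TensorProduct.map f g ∘ₗ (kun R A B).symm.toLinearMap

theorem tm_mul {A B A' B' : C} (f : R.H A →ₗ[K] R.H A') (g : R.H B →ₗ[K] R.H B') (x : R.H A)
    (y : R.H B) : tm R f g (R.mul x y) = R.mul (f x) (g y) := by
  simp only [tm, LinearMap.comp_apply, LinearEquiv.coe_coe, kun_symm_mul, TensorProduct.map_tmul,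
    kun_tmul]

theorem mul_ext {A B : C} {M : Type w} [AddCommGroup M] [Module K M]
    {f g : R.H (A ⊗ B) →ₗ[K] M} (h : ∀ x y, f (R.mul x y) = g (R.mul x y)) : f = g := by
  have h1 : f ∘ₗ (kun R A B).toLinearMap = g ∘ₗ (kun R A B).toLinearMap := by
    refine TensorProduct.ext' fun x y => ?_
    simp only [LinearMap.comp_apply, LinearEquiv.coe_coe, kun_tmul, h]
  refine LinearMap.ext fun z => ?_
  obtain ⟨z, rfl⟩ := (kun R A B).surjective z
  exact LinearMap.congr_fun h1 z

theorem tm_comp {A B A' B' A'' B'' : C} (f : R.H A →ₗ[K] R.H A') (g : R.H B →ₗ[K] R.H B')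
    (f' : R.H A' →ₗ[K] R.H A'') (g' : R.H B' →ₗ[K] R.H B'') :
    tm R f' g' ∘ₗ tm R f g = tm R (f' ∘ₗ f) (g' ∘ₗ g) := by
  refine mul_ext R fun x y => ?_
  simp only [LinearMap.comp_apply, tm_mul]

theorem tm_id (A B : C) : tm R (LinearMap.id : R.H A →ₗ[K] R.H A)
    (LinearMap.id : R.H B →ₗ[K] R.H B) = LinearMap.id := by
  refine mul_ext R fun x y => ?_
  simp only [tm_mul, LinearMap.id_apply]

theorem tm_add_left {A B A' B' : C} (f f' : R.H A →ₗ[K] R.H A') (g : R.H B →ₗ[K] R.H B') :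
    tm R (f + f') g = tm R f g + tm R f' g := by
  refine mul_ext R fun x y => ?_
  simp only [tm_mul, LinearMap.add_apply, map_add]

theorem tm_add_right {A B A' B' : C} (f : R.H A →ₗ[K] R.H A') (g g' : R.H B →ₗ[K] R.H B') :
    tm R f (g + g') = tm R f g + tm R f g' := by
  refine mul_ext R fun x y => ?_
  simp only [tm_mul, LinearMap.add_apply, map_add]

theorem tm_zero_left {A B A' B' : C} (g : R.H B →ₗ[K] R.H B') :
    tm R (0 : R.H A →ₗ[K] R.H A') g = 0 := by
  refine mul_ext R fun x y => ?_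
  simp only [tm_mul, LinearMap.zero_apply, map_zero]

theorem tm_zero_right {A B A' B' : C} (f : R.H A →ₗ[K] R.H A') :
    tm R f (0 : R.H B →ₗ[K] R.H B') = 0 := by
  refine mul_ext R fun x y => ?_
  simp only [tm_mul, LinearMap.zero_apply, map_zero]

theorem tm_smul_left {A B A' B' : C} (c : K) (f : R.H A →ₗ[K] R.H A') (g : R.H B →ₗ[K] R.H B') :
    tm R (c • f) g = c • tm R f g := by
  refine mul_ext R fun x y => ?_
  simp only [tm_mul, LinearMap.smul_apply, map_smul]

theorem tm_smul_right {A B A' B' : C} (c : K) (f : R.H A →ₗ[K] R.H A') (g : R.H B →ₗ[K] R.H B') :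
    tm R f (c • g) = c • tm R f g := by
  refine mul_ext R fun x y => ?_
  simp only [tm_mul, LinearMap.smul_apply, map_smul]

theorem par_eq (A B : C) : R.par (A ⊗ B) = tm R (R.par A) (R.par B) := by
  refine mul_ext R fun x y => ?_
  rw [R.par_mul, tm_mul]

theorem map_whiskerLeft_eq (A : C) {B D : C} (f : B ⟶ D) :
    R.map (A ◁ f) = tm R LinearMap.id (R.map f) := by
  refine mul_ext R fun x y => ?_
  rw [R.map_whiskerLeft, tm_mul, LinearMap.id_apply]

theorem trace_tm {A B : C} (f : R.H A →ₗ[K] R.H A) (g : R.H B →ₗ[K] R.H B) :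
    LinearMap.trace K _ (tm R f g) = LinearMap.trace K _ f * LinearMap.trace K _ g := by
  have h : tm R f g = (kun R A B).conj (TensorProduct.map f g) := by
    rw [LinearEquiv.conj_apply]
    rfl
  rw [h, LinearMap.trace_conj', LinearMap.trace_tensorProduct']

/-- The braiding commutes with even operators. -/
theorem braiding_tm (h2 : (2 : K) ≠ 0) {A B : C} (f : R.H A →ₗ[K] R.H A)
    (g : R.H B →ₗ[K] R.H B) (hf : ∀ x, f (R.par A x) = R.par A (f x))
    (hg : ∀ x, g (R.par B x) = R.par B (g x)) :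
    R.map (β_ A B).hom ∘ₗ tm R f g = tm R g f ∘ₗ R.map (β_ A B).hom := by
  refine mul_ext R fun x y => ?_
  simp only [LinearMap.comp_apply, tm_mul]
  apply smul_right_injective _ h2
  simp only
  rw [R.two_braiding h2, ← map_smul, R.two_braiding h2]
  simp only [map_add, map_sub, tm_mul, hf, hg]

theorem map_eq (A : C) : R.map (𝟙 A) = LinearMap.id := LinearMap.ext fun x => R.map_id A x

theorem map_comp_eq {A B D : C} (f : A ⟶ B) (g : B ⟶ D) :
    R.map (f ≫ g) = R.map g ∘ₗ R.map f := LinearMap.ext fun x => R.map_comp f g x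

/-- The linear map `a ⊗ b ↦ ⟨d, b⟩ a`. -/
noncomputable def eta (A B D : C) [ExactPairing B D] (d : R.H D) : R.H (A ⊗ B) →ₗ[K] R.H A :=
  (TensorProduct.lift ((LinearMap.lsmul K (R.H A)).flip.compl₂ (R.pairing B D d))) ∘ₗ
    (kun R A B).symm.toLinearMap

theorem eta_mul (A B D : C) [ExactPairing B D] (d : R.H D) (a : R.H A) (b : R.H B) :
    eta R A B D d (R.mul a b) = R.pairing B D d b • a := by
  simp [eta, kun_symm_mul]

/-- Every endomorphism of `H (A ⊗ B)` is a sum of tensor products. -/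
theorem end_induction {A B : C} {p : (R.H (A ⊗ B) →ₗ[K] R.H (A ⊗ B)) → Prop} (h0 : p 0)
    (h1 : ∀ f g, p (tm R f g)) (h2 : ∀ G G', p G → p G' → p (G + G'))
    (G : R.H (A ⊗ B) →ₗ[K] R.H (A ⊗ B)) : p G := by
  let e : (R.H A →ₗ[K] R.H A) ⊗[K] (R.H B →ₗ[K] R.H B) ≃ₗ[K]
      (R.H (A ⊗ B) →ₗ[K] R.H (A ⊗ B)) :=
    (homTensorHomEquiv K (R.H A) (R.H B) (R.H A) (R.H B)).trans (kun R A B).conj
  obtain ⟨t, rfl⟩ := e.surjective G
  induction t using TensorProduct.induction_on with
  | zero => rw [map_zero]; exact h0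
  | tmul f g =>
    have : e (f ⊗ₜ g) = tm R f g := by
      simp only [e, LinearEquiv.trans_apply, homTensorHomEquiv_apply]
      rw [LinearEquiv.conj_apply]
      rfl
    rw [this]
    exact h1 f g
  | add x y hx hy => rw [map_add]; exact h2 _ _ hx hy

theorem trace_sum_pairing (B D : C) [ExactPairing B D] (S : Finset (R.H B × R.H D))
    (hS : R.map (η_ B D) (R.unit 1) = ∑ i ∈ S, R.mul i.1 i.2) (g : R.H B →ₗ[K] R.H B) :
    ∑ i ∈ S, R.pairing B D i.2 (g i.1) = LinearMap.trace K _ g := by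
  have h : g = ∑ i ∈ S, dualTensorHom K (R.H B) (R.H B) (R.pairing B D i.2 ⊗ₜ g i.1) := by
    refine LinearMap.ext fun v => ?_
    rw [LinearMap.sum_apply]
    simp only [dualTensorHom_apply]
    conv_lhs => rw [← R.zigzag B D S hS v]
    rw [map_sum]
    simp only [map_smul]
  conv_rhs => rw [h]
  rw [map_sum]
  refine Finset.sum_congr rfl fun i _ => ?_
  rw [LinearMap.trace_eq_contract_apply, contractLeft_apply]

/-- The trace of a contraction is the trace. -/
theorem trace_eta (A B D : C) [ExactPairing B D] (S : Finset (R.H B × R.H D))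
    (hS : R.map (η_ B D) (R.unit 1) = ∑ i ∈ S, R.mul i.1 i.2) (G : R.H (A ⊗ B) →ₗ[K] R.H (A ⊗ B)) :
    LinearMap.trace K _ (∑ i ∈ S, eta R A B D i.2 ∘ₗ G ∘ₗ (R.mul (A := A) (B := B)).flip i.1) =
      LinearMap.trace K _ G := by
  refine end_induction R (p := fun G => LinearMap.trace K _ (∑ i ∈ S,
    eta R A B D i.2 ∘ₗ G ∘ₗ (R.mul (A := A) (B := B)).flip i.1) = LinearMap.trace K _ G)
    ?_ ?_ ?_ G
  · simp
  · intro f g
    have h1 : ∑ i ∈ S, eta R A B D i.2 ∘ₗ tm R f g ∘ₗ (R.mul (A := A) (B := B)).flip i.1 =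
        (LinearMap.trace K _ g) • f := by
      refine LinearMap.ext fun x => ?_
      rw [LinearMap.sum_apply]
      simp only [LinearMap.comp_apply, LinearMap.flip_apply, tm_mul, eta_mul]
      rw [← Finset.sum_smul, trace_sum_pairing R B D S hS, LinearMap.smul_apply]
    rw [h1, map_smul, trace_tm, smul_eq_mul, mul_comm]
  · intro G G' h h'
    simp only [LinearMap.add_comp, LinearMap.comp_add, Finset.sum_add_distrib, map_add, h, h']

theorem theta_eq (h2 : (2 : K) ≠ 0) {A B : C} (D : C) [ExactPairing B D] (d : R.H D)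
    (y : R.H (A ⊗ B)) :
    R.map (ρ_ A).hom (R.map (A ◁ ε_ B D) (R.map (A ◁ (β_ B D).hom) (R.map (α_ A B D).hom
      (R.mul y d)))) = eta R A B D d (tm R LinearMap.id (R.par B) y) := by
  have h : R.map (ρ_ A).hom ∘ₗ R.map (A ◁ ε_ B D) ∘ₗ R.map (A ◁ (β_ B D).hom) ∘ₗ
      R.map (α_ A B D).hom ∘ₗ (R.mul (A := A ⊗ B) (B := D)).flip d =
      eta R A B D d ∘ₗ tm R LinearMap.id (R.par B) := by
    refine mul_ext R fun a b => ?_
    simp only [LinearMap.comp_apply, LinearMap.flip_apply, tm_mul, eta_mul, LinearMap.id_apply]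
    exact Pool.Agent.Results.MP_eadf0f_ag.SquareDescent.theta R h2 D a b d
  exact LinearMap.congr_fun h y

/-- The trace of the contraction of a morphism, composed with any operator. -/
theorem trace_contraction (h2 : (2 : K) ≠ 0) {A B : C} (D : C) [ExactPairing B D]
    (z : A ⊗ B ⟶ A ⊗ B) (X : R.H A →ₗ[K] R.H A) :
    LinearMap.trace K _ (R.map (SuperRealization.contraction D z) ∘ₗ X) =
      LinearMap.trace K _ (tm R LinearMap.id (R.par B) ∘ₗ R.map z ∘ₗ tm R X LinearMap.id) := by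
  obtain ⟨S, hS⟩ := R.exists_coev B D
  rw [← trace_eta R A B D S hS]
  congr 1
  refine LinearMap.ext fun x => ?_
  unfold SuperRealization.contraction
  simp only [LinearMap.comp_apply, R.map_comp, LinearMap.sum_apply, LinearMap.flip_apply, tm_mul,
    LinearMap.id_apply]
  rw [R.map_rightUnitor_inv, R.map_whiskerLeft, hS, map_sum, map_sum]
  simp only [R.map_associator_inv]
  rw [map_sum]
  simp only [R.map_whiskerRight]
  simp only [map_sum, theta_eq R h2 D]

/-- The contraction with respect to the left factor. -/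
noncomputable def contractLeft [RightRigidCategory C] {A B : C} (z : A ⊗ B ⟶ A ⊗ B) : B ⟶ B :=
  SuperRealization.contraction (Aᘁ) ((β_ B A).hom ≫ z ≫ (β_ A B).hom)

theorem trace_contractLeft [RightRigidCategory C] (h2 : (2 : K) ≠ 0) {A B : C}
    (z : A ⊗ B ⟶ A ⊗ B) (X : R.H B →ₗ[K] R.H B) (hX : ∀ x, X (R.par B x) = R.par B (X x)) :
    LinearMap.trace K _ (R.map (contractLeft z) ∘ₗ X) =
      LinearMap.trace K _ (tm R (R.par A) LinearMap.id ∘ₗ R.map z ∘ₗ tm R LinearMap.id X) := by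
  rw [contractLeft, trace_contraction R h2, map_comp_eq, map_comp_eq]
  have e1 : tm R (LinearMap.id : R.H B →ₗ[K] R.H B) (R.par A) ∘ₗ R.map (β_ A B).hom =
      R.map (β_ A B).hom ∘ₗ tm R (R.par A) LinearMap.id :=
    (braiding_tm R h2 (R.par A) LinearMap.id (fun _ => rfl) (fun _ => rfl)).symm
  have e2 : R.map (β_ B A).hom ∘ₗ tm R X (LinearMap.id : R.H A →ₗ[K] R.H A) =
      tm R LinearMap.id X ∘ₗ R.map (β_ B A).hom :=
    braiding_tm R h2 X LinearMap.id hX (fun _ => rfl)
  have e3 : R.map (β_ B A).hom ∘ₗ R.map (β_ A B).hom = LinearMap.id := by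
    rw [← map_comp_eq, SymmetricCategory.symmetry, map_eq]
  have e4 : tm R (LinearMap.id : R.H B →ₗ[K] R.H B) (R.par A) ∘ₗ
      ((R.map (β_ A B).hom ∘ₗ R.map z) ∘ₗ R.map (β_ B A).hom) ∘ₗ
        tm R X (LinearMap.id : R.H A →ₗ[K] R.H A) =
      R.map (β_ A B).hom ∘ₗ ((tm R (R.par A) LinearMap.id ∘ₗ R.map z ∘ₗ tm R LinearMap.id X) ∘ₗ
        R.map (β_ B A).hom) := by
    calc _ = (tm R (LinearMap.id : R.H B →ₗ[K] R.H B) (R.par A) ∘ₗ R.map (β_ A B).hom) ∘ₗ
          R.map z ∘ₗ (R.map (β_ B A).hom ∘ₗ tm R X (LinearMap.id : R.H A →ₗ[K] R.H A)) := rfl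
      _ = _ := by rw [e1, e2]; rfl
  rw [e4, LinearMap.trace_comp_comm', LinearMap.comp_assoc, e3, LinearMap.comp_id]

end Pool.Agent.Helper59.SD
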