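import Pool.Agent.Helper59.SD.Final

/-!
# The core of the descent
-/

set_option autoImplicit false

namespace Pool.Agent.Helper59.SD

open CategoryTheory MonoidalCategory TensorProduct
open Pool.Agent.Results.MP_eadf0f_ag.TensorDescent

universe w v u t

variable {F K : Type w} [Field F] [Field K] [Algebra F K] [CharZero K] {C : Type u}
    [Category.{v} C] [Preadditive C] [Linear F C] [MonoidalCategory C] [SymmetricCategory C]
    [RightRigidCategory C]
    (R : SuperRealization F K C) {ι : Type t} [Fintype ι] [DecidableEq ι] (A : ι → C)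

theorem two_ne : (2 : K) ≠ 0 := two_ne_zero

/-- The trace formula for one letter. -/
theorem trace_one (i : ι) (w : List ι) (z : word A w ⟶ word A w)
    (T : R.H (word A w) →ₗ[K] R.H (word A w)) (hz : R.map z = R.par _ ∘ₗ T)
    (X : R.H (A i) →ₗ[K] R.H (A i)) (hX : ∀ x, X (R.par _ x) = R.par _ (X x)) :
    LinearMap.trace K _ ((R.par (A i) ∘ₗ R.map (Phi A w z i)) ∘ₗ X) =
      LinearMap.trace K _ (T ∘ₗ DD R A (Pi.single i X) w) := by
  rw [← trace_Phi R A two_ne (single_even R A i X hX) w z T hz, Finset.sum_eq_single i]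
  · rw [Pi.single_eq_same, LinearMap.comp_assoc]
  · intro j _ hj
    rw [Pi.single_eq_of_ne hj]
    simp
  · intro h
    exact absurd (Finset.mem_univ i) h

/-- The contraction of the parity operator of the summand is a combination of the parity operator
of the factor and of the identity. -/
theorem Y_schur (i : ι) (w : List ι) (e z : word A w ⟶ word A w) (he : IsPerm F A e)
    (hz : R.map z = R.par _ ∘ₗ R.map e) :
    ∃ p q : K, ∀ x, (R.par (A i) ∘ₗ R.map (Phi A w z i)) x =
      p • evenProj (R.par (A i)) x + q • oddProj (R.par (A i)) x := by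
  set Y := R.par (A i) ∘ₗ R.map (Phi A w z i) with hYdef
  have hπ : ∀ x, R.par (A i) (R.par (A i) x) = x := R.par_par _
  have hY : ∀ x, Y (R.par _ x) = R.par _ (Y x) := by
    intro x
    simp only [hYdef, LinearMap.comp_apply, R.map_par]
  refine schur two_ne (R.par (A i)) hπ Y fun X hX => ?_
  have hW : Y ∘ₗ X - X ∘ₗ Y = 0 := by
    refine eq_zero_of_trace_even two_ne (R.par (A i)) hπ _ ?_ ?_
    · intro x
      simp only [LinearMap.sub_apply, LinearMap.comp_apply, hX, hY, map_sub]
    · intro Z hZ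
      have h1 : LinearMap.trace K _ ((Y ∘ₗ X - X ∘ₗ Y) ∘ₗ Z) =
          LinearMap.trace K _ (Y ∘ₗ (X ∘ₗ Z - Z ∘ₗ X)) := by
        rw [LinearMap.sub_comp, LinearMap.comp_sub, map_sub, map_sub]
        congr 1
        rw [LinearMap.comp_assoc, LinearMap.trace_comp_comm', LinearMap.comp_assoc]
      have hXZ : ∀ x, (X ∘ₗ Z - Z ∘ₗ X) (R.par _ x) = R.par _ ((X ∘ₗ Z - Z ∘ₗ X) x) := by
        intro x
        simp only [LinearMap.sub_apply, LinearMap.comp_apply, hX, hZ, map_sub]
      rw [h1, trace_one R A i w z (R.map e) hz _ hXZ, DD_single_comm, LinearMap.comp_sub, map_sub,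
        sub_eq_zero]
      have h3 : R.map e ∘ₗ DD R A (Pi.single i X) w = DD R A (Pi.single i X) w ∘ₗ R.map e :=
        LinearMap.ext fun x => isPerm_DD R A two_ne (single_even R A i X hX) e he x
      calc LinearMap.trace K _ (R.map e ∘ₗ DD R A (Pi.single i X) w ∘ₗ DD R A (Pi.single i Z) w)
          = LinearMap.trace K _ ((R.map e ∘ₗ DD R A (Pi.single i X) w) ∘ₗ
              DD R A (Pi.single i Z) w) := rfl
        _ = LinearMap.trace K _ (DD R A (Pi.single i X) w ∘ₗ (R.map e ∘ₗ
              DD R A (Pi.single i Z) w)) := by rw [h3]; rfl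
        _ = LinearMap.trace K _ ((R.map e ∘ₗ DD R A (Pi.single i Z) w) ∘ₗ
              DD R A (Pi.single i X) w) := LinearMap.trace_comp_comm' _ _
        _ = _ := rfl
  intro x
  have := LinearMap.congr_fun hW x
  rw [LinearMap.sub_apply, LinearMap.zero_apply, sub_eq_zero] at this
  exact this

omit [Fintype ι] [RightRigidCategory C] in
theorem nat_trace_DD (i : ι) (w : List ι) (e : word A w ⟶ word A w) (he : IsPerm F A e)
    (hid : R.map e ∘ₗ R.map e = R.map e) (P : R.H (A i) →ₗ[K] R.H (A i))
    (hP : P ∘ₗ P = P) (hPe : ∀ x, P (R.par _ x) = R.par _ (P x)) :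
    ∃ c : ℕ, LinearMap.trace K _ (R.map e ∘ₗ DD R A (Pi.single i P) w) = c := by
  have h1 := DD_ff R A i P hP w
  have h3 : (R.map e : Module.End K (R.H (word A w))) * DD R A (Pi.single i P) w =
      DD R A (Pi.single i P) w * R.map e :=
    LinearMap.ext fun x => isPerm_DD R A two_ne (single_even R A i P hPe) e he x
  have h4 := ff_compress (R.map e : Module.End K (R.H (word A w))) _ hid h3 w.length h1
  exact nat_trace _ _ h4

omit [Fintype ι] [RightRigidCategory C] [CharZero K] in
theorem par_of_even_zero (h2 : (2 : K) ≠ 0) (B : C) (h : evenProj (R.par B) = 0) :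
    R.map (-𝟙 B) = R.par B := by
  refine LinearMap.ext fun x => ?_
  have h1 := even_add_odd h2 (R.par B) x
  have h3 := even_sub_odd h2 (R.par B) x
  rw [h, LinearMap.zero_apply, zero_add] at h1
  rw [h, LinearMap.zero_apply, zero_sub, h1] at h3
  rw [← h3]
  have : (-𝟙 B : B ⟶ B) = (-1 : F) • 𝟙 B := by rw [neg_one_smul]
  rw [this, R.map_smul, R.map_id, map_neg, map_one, neg_one_smul]

omit [Fintype ι] [RightRigidCategory C] [CharZero K] in
theorem par_of_odd_zero (h2 : (2 : K) ≠ 0) (B : C) (h : oddProj (R.par B) = 0) :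
    R.map (𝟙 B) = R.par B := by
  refine LinearMap.ext fun x => ?_
  have h1 := even_add_odd h2 (R.par B) x
  have h3 := even_sub_odd h2 (R.par B) x
  rw [h, LinearMap.zero_apply, add_zero] at h1
  rw [h, LinearMap.zero_apply, sub_zero, h1] at h3
  rw [← h3, R.map_id]

omit [CharZero K] in
theorem evenProj_comp (h2 : (2 : K) ≠ 0) {V : Type w} [AddCommGroup V] [Module K V]
    (π : V →ₗ[K] V) (hπ : ∀ x, π (π x) = x) : evenProj π ∘ₗ evenProj π = evenProj π :=
  LinearMap.ext fun x => even_of_pi h2 π _ (pi_even π hπ x)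

omit [CharZero K] in
theorem oddProj_comp (h2 : (2 : K) ≠ 0) {V : Type w} [AddCommGroup V] [Module K V]
    (π : V →ₗ[K] V) (hπ : ∀ x, π (π x) = x) : oddProj π ∘ₗ oddProj π = oddProj π :=
  LinearMap.ext fun x => odd_of_pi h2 π _ (pi_odd π hπ x)

omit [CharZero K] in
/-- A natural number for the trace of an idempotent, not zero if the idempotent is not zero. -/
theorem trace_idem {V : Type w} [AddCommGroup V] [Module K V] [Module.Finite K V]
    (P : V →ₗ[K] V) (hP : P ∘ₗ P = P) : ∃ c : ℕ, LinearMap.trace K V P = c ∧ (P ≠ 0 → c ≠ 0) := by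
  have h1 : IsIdempotentElem (P : Module.End K V) := hP
  have h2 := (LinearMap.isProj_range_iff_isIdempotentElem P).2 h1
  refine ⟨_, h2.trace, fun hne h0 => hne ?_⟩
  rw [← LinearMap.range_eq_bot, ← Submodule.finrank_eq_zero (R := K), h0]

/-- The core: an endomorphism of the factor with the parity operator as its image. -/
theorem core (i : ι) (w : List ι) (hi : i ∈ w) (e z : word A w ⟶ word A w) (he : IsPerm F A e)
    (hid : R.map e ∘ₗ R.map e = R.map e) (hne : R.map e ≠ 0)
    (hz : R.map z = R.par _ ∘ₗ R.map e) : ∃ f : A i ⟶ A i, R.map f = R.par (A i) := by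
  have h2 : (2 : K) ≠ 0 := two_ne
  have hπ : ∀ x, R.par (A i) (R.par (A i) x) = x := R.par_par _
  by_cases hev : evenProj (R.par (A i)) = 0
  · exact ⟨_, par_of_even_zero R h2 _ hev⟩
  by_cases hod : oddProj (R.par (A i)) = 0
  · exact ⟨_, par_of_odd_zero R h2 _ hod⟩
  obtain ⟨p, q, hpq⟩ := Y_schur R A i w e z he hz
  have hec := evenProj_comp h2 (R.par (A i)) hπ
  have hoc := oddProj_comp h2 (R.par (A i)) hπ
  have hee : ∀ x, evenProj (R.par (A i)) (R.par _ x) = R.par _ (evenProj (R.par (A i)) x) := by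
    intro x
    rw [evenProj_apply, evenProj_apply, map_smul, map_add]
  have hoe : ∀ x, oddProj (R.par (A i)) (R.par _ x) = R.par _ (oddProj (R.par (A i)) x) := by
    intro x
    rw [oddProj_apply, oddProj_apply, map_smul, map_sub]
  have heo : ∀ x, evenProj (R.par (A i)) (oddProj (R.par (A i)) x) = 0 := fun x =>
    even_of_neg _ _ (pi_odd _ hπ x)
  have hoe' : ∀ x, oddProj (R.par (A i)) (evenProj (R.par (A i)) x) = 0 := fun x =>
    odd_of_fix _ _ (pi_even _ hπ x)
  obtain ⟨a, ha, ha0⟩ := trace_idem _ hec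
  obtain ⟨b, hb, hb0⟩ := trace_idem _ hoc
  obtain ⟨cp, hcp⟩ := nat_trace_DD R A i w e he hid _ hec hee
  obtain ⟨cm, hcm⟩ := nat_trace_DD R A i w e he hid _ hoc hoe
  obtain ⟨r, hr, hr0⟩ := trace_idem _ hid
  have ha1 := ha0 hev
  have hb1 := hb0 hod
  have hr1 := hr0 hne
  have hsum : cp + cm = w.count i * r := by
    have h3 : DD R A (Pi.single i (evenProj (R.par (A i)))) w +
        DD R A (Pi.single i (oddProj (R.par (A i)))) w = (w.count i : K) • LinearMap.id := by
      rw [← DD_single_add, ← DD_single_id]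
      congr 2
      exact LinearMap.ext fun x => even_add_odd h2 _ x
    have h4 : ((cp + cm : ℕ) : K) = ((w.count i * r : ℕ) : K) := by
      push_cast
      rw [← hcp, ← hcm, ← map_add, ← LinearMap.comp_add, h3, LinearMap.comp_smul,
        LinearMap.comp_id, map_smul, hr, smul_eq_mul]
    exact_mod_cast h4
  have hcount : 0 < w.count i := List.count_pos_iff.2 hi
  have hpos : 0 < cp + cm := by
    rw [hsum]
    exact Nat.mul_pos hcount (Nat.pos_of_ne_zero hr1)
  have hp : p * a = cp := by
    rw [← hcp, ← trace_one R A i w z (R.map e) hz _ hee, ← ha, ← smul_eq_mul, ← map_smul]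
    congr 1
    refine LinearMap.ext fun x => ?_
    rw [LinearMap.comp_apply, hpq, hoe', smul_zero, add_zero, LinearMap.smul_apply]
    congr 1
    exact (LinearMap.congr_fun hec x).symm
  have hq : q * b = cm := by
    rw [← hcm, ← trace_one R A i w z (R.map e) hz _ hoe, ← hb, ← smul_eq_mul, ← map_smul]
    congr 1
    refine LinearMap.ext fun x => ?_
    rw [LinearMap.comp_apply, hpq, heo, smul_zero, zero_add, LinearMap.smul_apply]
    congr 1
    exact (LinearMap.congr_fun hoc x).symm
  have haK : (a : K) ≠ 0 := by exact_mod_cast ha1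
  have hbK : (b : K) ≠ 0 := by exact_mod_cast hb1
  -- the image of the contraction
  have hPhi : ∀ x, R.map (Phi A w z i) x =
      ((p + q) / 2) • R.par (A i) x + ((p - q) / 2) • x := by
    intro x
    have h5 : R.map (Phi A w z i) x = R.par (A i) ((R.par (A i) ∘ₗ R.map (Phi A w z i)) x) := by
      rw [LinearMap.comp_apply, hπ]
    rw [h5, hpq, map_add, map_smul, map_smul, pi_even _ hπ, pi_odd _ hπ, evenProj_apply,
      oddProj_apply]
    module
  have hF : CharZero F := (algebraMap F K).charZero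
  have hmain : (p + q) * (2 * a * b) = 2 * (b * cp + a * cm : ℕ) := by
    push_cast
    rw [← hp, ← hq]; ring
  have hnat : (b * cp + a * cm : ℕ) ≠ 0 := by
    intro h0
    have h6 : b * cp = 0 ∧ a * cm = 0 := by omega
    rcases h6 with ⟨h7, h8⟩
    have h9 : cp = 0 := (Nat.mul_eq_zero.1 h7).resolve_left hb1
    have h10 : cm = 0 := (Nat.mul_eq_zero.1 h8).resolve_left ha1
    omega
  -- the coefficients in `F`
  let α : F := ((cp : F) / a + (cm : F) / b) / 2
  let β : F := ((cp : F) / a - (cm : F) / b) / 2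
  have hpe : p = cp / a := by field_simp; exact hp
  have hqe : q = cm / b := by field_simp; exact hq
  have hα : algebraMap F K α = (p + q) / 2 := by
    simp only [α, map_div₀, map_add, map_natCast, map_ofNat, hpe, hqe]
  have hβ : algebraMap F K β = (p - q) / 2 := by
    simp only [β, map_div₀, map_sub, map_natCast, map_ofNat, hpe, hqe]
  have hα0 : (p + q) / 2 ≠ 0 := by
    intro h0
    have h11 : p + q = 0 := by
      have := congrArg (fun x => x * 2) h0
      simpa using this
    rw [h11, zero_mul] at hmain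
    have h12 : ((b * cp + a * cm : ℕ) : K) = 0 := by
      have := hmain.symm
      rcases mul_eq_zero.1 this with h13 | h13
      · exact absurd h13 h2
      · exact h13
    exact hnat (by exact_mod_cast h12)
  refine ⟨α⁻¹ • (Phi A w z i - β • 𝟙 (A i)), LinearMap.ext fun x => ?_⟩
  have hsub : (Phi A w z i - β • 𝟙 (A i)) = Phi A w z i + (-β) • 𝟙 (A i) := by
    rw [neg_smul, sub_eq_add_neg]
  rw [hsub, R.map_smul, R.map_add, R.map_smul, R.map_id, hPhi, map_inv₀, map_neg, hα, hβ]
  have : ((p + q) / 2) • R.par (A i) x + ((p - q) / 2) • x + -((p - q) / 2) • x =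
      ((p + q) / 2) • R.par (A i) x := by module
  rw [this, smul_smul, inv_mul_cancel₀ hα0, one_smul]

omit [CharZero K] [RightRigidCategory C] [Fintype ι] [DecidableEq ι] in
theorem cnc_unit (h2 : (2 : K) ≠ 0) : R.CNC (𝟙_ C) := by
  rw [R.cnc_iff h2]
  refine ⟨𝟙 _, LinearMap.ext fun x => ?_⟩
  obtain ⟨c, rfl⟩ := R.unit.surjective x
  have : R.unit c = c • R.unit 1 := by rw [← map_smul, smul_eq_mul, mul_one]
  rw [R.map_id, this, map_smul, R.par_unit]

omit [CharZero K] [RightRigidCategory C] [Fintype ι] [DecidableEq ι] in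
theorem cnc_word (h2 : (2 : K) ≠ 0) (w : List ι) (h : ∀ i ∈ w, R.CNC (A i)) :
    R.CNC (word A w) := by
  induction w with
  | nil => exact cnc_unit R h2
  | cons i w ih =>
    exact R.cnc_tensor h2 (h i List.mem_cons_self) (ih fun j hj => h j (List.mem_cons_of_mem _ hj))

/-- The conjecture for a direct summand given by permutations of the factors. -/
theorem cnc_summand (w : List ι) (M : C) (s : M ⟶ word A w) (r : word A w ⟶ M)
    (hsr : s ≫ r = 𝟙 M) (he : IsPerm F A (r ≫ s)) (hM : Nontrivial (R.H M)) :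
    R.CNC M ↔ ∀ i ∈ w, R.CNC (A i) := by
  have h2 : (2 : K) ≠ 0 := two_ne
  constructor
  · intro h i hi
    rw [R.cnc_iff h2] at h ⊢
    obtain ⟨f, hf⟩ := h
    have hid : R.map (r ≫ s) ∘ₗ R.map (r ≫ s) = R.map (r ≫ s) := by
      rw [← map_comp_eq]
      congr 1
      rw [Category.assoc, ← Category.assoc s, hsr, Category.id_comp]
    have hne : R.map (r ≫ s) ≠ 0 := by
      intro h0
      obtain ⟨x, hx⟩ := exists_ne (0 : R.H M)
      apply hx
      have h3 : R.map r (R.map s x) = x := by rw [← R.map_comp, hsr, R.map_id]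
      have h4 : R.map s x = R.map (r ≫ s) (R.map s x) := by
        rw [R.map_comp, h3]
      rw [h0, LinearMap.zero_apply] at h4
      rw [← h3, h4, map_zero]
    refine core R A i w hi (r ≫ s) (r ≫ f ≫ s) he hid hne ?_
    refine LinearMap.ext fun x => ?_
    rw [R.map_comp, R.map_comp, hf, LinearMap.comp_apply, R.map_par, R.map_comp]
  · intro h
    have hw := cnc_word R A h2 w h
    rw [R.cnc_iff h2] at hw ⊢
    obtain ⟨f, hf⟩ := hw
    refine ⟨s ≫ f ≫ r, LinearMap.ext fun x => ?_⟩
    rw [R.map_comp, R.map_comp, hf, R.map_par, ← R.map_comp, hsr, R.map_id]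

end Pool.Agent.Helper59.SD
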