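import Pool.Agent.Helper59.SD.Trace

/-!
# The descent of the conjecture
-/

set_option autoImplicit false

namespace Pool.Agent.Helper59.SD

open CategoryTheory MonoidalCategory TensorProduct
open Pool.Agent.Results.MP_eadf0f_ag.TensorDescent

universe w v u t

section

variable {K : Type w} [Field K] {V : Type w} [AddCommGroup V] [Module K V] [Module.Finite K V]

theorem eq_zero_of_trace (W : V →ₗ[K] V)
    (h : ∀ Z : V →ₗ[K] V, LinearMap.trace K V (W ∘ₗ Z) = 0) : W = 0 := by
  refine LinearMap.ext fun v => ?_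
  rw [LinearMap.zero_apply, ← Module.forall_dual_apply_eq_zero_iff K]
  intro f
  have h1 := h (LinearMap.smulRight f v)
  have h2 : W ∘ₗ LinearMap.smulRight f v = LinearMap.smulRight f (W v) := by
    refine LinearMap.ext fun x => ?_
    simp
  rwa [h2, LinearMap.trace_smulRight] at h1

/-- The trace form is nondegenerate on the even operators. -/
theorem eq_zero_of_trace_even (h2 : (2 : K) ≠ 0) (π : V →ₗ[K] V) (hπ : ∀ x, π (π x) = x)
    (W : V →ₗ[K] V) (hW : ∀ x, W (π x) = π (W x))
    (h : ∀ Z : V →ₗ[K] V, (∀ x, Z (π x) = π (Z x)) → LinearMap.trace K V (W ∘ₗ Z) = 0) :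
    W = 0 := by
  refine eq_zero_of_trace W fun Z => ?_
  have hππ : π ∘ₗ π = LinearMap.id := LinearMap.ext hπ
  have h1 := h (Z + π ∘ₗ Z ∘ₗ π) (fun x => by
    simp only [LinearMap.add_apply, LinearMap.comp_apply, map_add, hπ]
    abel)
  have hW' : W ∘ₗ π = π ∘ₗ W := LinearMap.ext hW
  rw [LinearMap.comp_add, map_add] at h1
  have h3 : LinearMap.trace K V (W ∘ₗ π ∘ₗ Z ∘ₗ π) = LinearMap.trace K V (W ∘ₗ Z) := by
    calc LinearMap.trace K V (W ∘ₗ π ∘ₗ Z ∘ₗ π) = LinearMap.trace K V ((W ∘ₗ π) ∘ₗ (Z ∘ₗ π)) := rfl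
      _ = LinearMap.trace K V (π ∘ₗ (W ∘ₗ Z ∘ₗ π)) := by rw [hW']; rfl
      _ = LinearMap.trace K V ((W ∘ₗ Z ∘ₗ π) ∘ₗ π) := LinearMap.trace_comp_comm' _ _
      _ = LinearMap.trace K V (W ∘ₗ Z ∘ₗ (π ∘ₗ π)) := rfl
      _ = _ := by rw [hππ, LinearMap.comp_id]
  rw [h3] at h1
  have h4 : (2 : K) * LinearMap.trace K V (W ∘ₗ Z) = 0 := by linear_combination h1
  exact (mul_eq_zero.1 h4).resolve_left h2

end

variable {F K : Type w} [Field F] [Field K] [Algebra F K] [CharZero K] {C : Type u}
    [Category.{v} C] [Preadditive C] [Linear F C] [MonoidalCategory C] [SymmetricCategory C]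
    (R : SuperRealization F K C) {ι : Type t} [Fintype ι] [DecidableEq ι] (A : ι → C)

omit [CharZero K] [Fintype ι] in
theorem single_even (i : ι) (X : R.H (A i) →ₗ[K] R.H (A i))
    (hX : ∀ x, X (R.par _ x) = R.par _ (X x)) :
    IsEvenFam R A (Pi.single i X) := by
  intro j x
  by_cases h : j = i
  · subst h
    rw [Pi.single_eq_same, hX]
  · rw [Pi.single_eq_of_ne h, LinearMap.zero_apply, LinearMap.zero_apply, map_zero]

omit [CharZero K] [Fintype ι] in
theorem DD_single_comm (i : ι) (X Z : R.H (A i) →ₗ[K] R.H (A i)) (w : List ι) :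
    DD R A (Pi.single i (X ∘ₗ Z - Z ∘ₗ X)) w =
      DD R A (Pi.single i X) w ∘ₗ DD R A (Pi.single i Z) w -
        DD R A (Pi.single i Z) w ∘ₗ DD R A (Pi.single i X) w := by
  rw [← DD_comm]
  congr 1
  funext j
  by_cases h : j = i
  · subst h
    simp only [Pi.single_eq_same]
  · simp [Pi.single_eq_of_ne h]

omit [CharZero K] [Fintype ι] in
theorem DD_single_id (i : ι) (w : List ι) :
    DD R A (Pi.single i LinearMap.id) w = (w.count i : K) • LinearMap.id := by
  induction w with
  | nil => simp [DD]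
  | cons j w ih =>
    rw [DD_cons, ih, tm_smul_right, tm_id]
    by_cases h : j = i
    · subst h
      rw [Pi.single_eq_same, tm_id, List.count_cons_self]
      push_cast
      rw [add_smul, one_smul, add_comm]
    · rw [Pi.single_eq_of_ne h, tm_zero_left, zero_add, List.count_cons_of_ne h]

omit [CharZero K] [Fintype ι] in
theorem DD_single_add (i : ι) (X Z : R.H (A i) →ₗ[K] R.H (A i)) (w : List ι) :
    DD R A (Pi.single i (X + Z)) w =
      DD R A (Pi.single i X) w + DD R A (Pi.single i Z) w := by
  rw [← DD_add, Pi.single_add]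

/-- The algebra map `f ↦ 1 ⊗ f` on endomorphisms. -/
noncomputable def tmRight (R : SuperRealization F K C) (P Q : C) :
    Module.End K (R.H Q) →ₐ[K] Module.End K (R.H (P ⊗ Q)) :=
  AlgHom.ofLinearMap
    { toFun := fun f => tm R LinearMap.id f
      map_add' := fun f g => tm_add_right R _ f g
      map_smul' := fun c f => tm_smul_right R c _ f }
    (tm_id R P Q) (fun f g => by
      show tm R LinearMap.id (f * g) = tm R LinearMap.id f * tm R LinearMap.id g
      rw [Module.End.mul_eq_comp, Module.End.mul_eq_comp, tm_comp, LinearMap.id_comp])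

omit [CharZero K] [Fintype ι] in
/-- The sum over the factors `A i` of an idempotent operator has only the eigenvalues `0, 1, …`,
up to the number of factors. -/
theorem DD_ff (i : ι) (P : R.H (A i) →ₗ[K] R.H (A i)) (hP : P ∘ₗ P = P) (w : List ι) :
    Polynomial.aeval (DD R A (Pi.single i P) w : Module.End K (R.H (word A w)))
      (ff K w.length) = 0 := by
  induction w with
  | nil =>
    simp [DD, ff]
  | cons j w ih =>
    have h1 : Polynomial.aeval (tm R (LinearMap.id : R.H (A j) →ₗ[K] _)
        (DD R A (Pi.single i P) w) : Module.End K (R.H (A j ⊗ word A w))) (ff K w.length) = 0 := by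
      have := Polynomial.aeval_algHom_apply (tmRight R (A j) (word A w))
        (DD R A (Pi.single i P) w : Module.End K (R.H (word A w))) (ff K w.length)
      rw [ih, map_zero] at this
      exact this
    rw [DD_cons, List.length_cons]
    by_cases h : j = i
    · subst h
      rw [Pi.single_eq_same]
      refine ff_idem_add _ _ ?_ ?_ _ h1
      · rw [Module.End.mul_eq_comp, tm_comp, hP, LinearMap.id_comp]
      · rw [Module.End.mul_eq_comp, Module.End.mul_eq_comp, tm_comp, tm_comp, LinearMap.id_comp,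
          LinearMap.id_comp, LinearMap.comp_id, LinearMap.comp_id]
    · rw [Pi.single_eq_of_ne h, tm_zero_left, zero_add]
      exact ff_succ_of _ _ h1

end Pool.Agent.Helper59.SD
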