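import Pool.Agent.Helper59.SD.Words

/-!
# The sum of all contractions to one factor
-/

set_option autoImplicit false

namespace Pool.Agent.Helper59.SD

open CategoryTheory MonoidalCategory TensorProduct
open Pool.Agent.Results.MP_eadf0f_ag.TensorDescent

universe w v u t

variable {F K : Type w} [Field F] [Field K] [Algebra F K] {C : Type u}
    [Category.{v} C] [Preadditive C] [Linear F C] [MonoidalCategory C] [SymmetricCategory C]
    (R : SuperRealization F K C) {ι : Type t} (A : ι → C)

theorem DD_add (X Z : ∀ i, R.H (A i) →ₗ[K] R.H (A i)) (w : List ι) :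
    DD R A (X + Z) w = DD R A X w + DD R A Z w := by
  induction w with
  | nil => simp [DD]
  | cons i w ih =>
    rw [DD_cons, DD_cons, DD_cons, ih, Pi.add_apply, tm_add_left, tm_add_right]
    abel

theorem DD_comm (X Z : ∀ i, R.H (A i) →ₗ[K] R.H (A i)) (w : List ι) :
    DD R A (fun i => X i ∘ₗ Z i - Z i ∘ₗ X i) w =
      DD R A X w ∘ₗ DD R A Z w - DD R A Z w ∘ₗ DD R A X w := by
  induction w with
  | nil => simp [DD]
  | cons i w ih =>
    have hs : ∀ (P Q : C) (f g : R.H P →ₗ[K] R.H P) (h : R.H Q →ₗ[K] R.H Q),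
        tm R (f - g) h = tm R f h - tm R g h := by
      intro P Q f g h
      refine mul_ext R fun x y => ?_
      simp only [tm_mul, LinearMap.sub_apply, map_sub]
    have hs' : ∀ (P Q : C) (f : R.H P →ₗ[K] R.H P) (h g : R.H Q →ₗ[K] R.H Q),
        tm R f (h - g) = tm R f h - tm R f g := by
      intro P Q f g h
      refine mul_ext R fun x y => ?_
      simp only [tm_mul, LinearMap.sub_apply, map_sub]
    rw [DD_cons, DD_cons, DD_cons, ih, hs, hs']
    simp only [LinearMap.add_comp, LinearMap.comp_add, tm_comp, LinearMap.id_comp,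
      LinearMap.comp_id]
    abel

theorem map_zero_eq {B D : C} : R.map (0 : B ⟶ D) = 0 := by
  refine LinearMap.ext fun x => ?_
  have := R.map_smul (0 : F) (0 : B ⟶ D) x
  rw [zero_smul, map_zero, zero_smul] at this
  rw [this, LinearMap.zero_apply]

theorem map_add_eq {B D : C} (f g : B ⟶ D) : R.map (f + g) = R.map f + R.map g :=
  LinearMap.ext fun x => R.map_add f g x

theorem map_smul_eq {B D : C} (a : F) (f : B ⟶ D) : R.map (a • f) = algebraMap F K a • R.map f :=
  LinearMap.ext fun x => R.map_smul a f x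

theorem par_comp_par (B : C) : R.par B ∘ₗ R.par B = LinearMap.id :=
  LinearMap.ext fun x => R.par_par B x

theorem map_comp_par {B D : C} (f : B ⟶ D) : R.map f ∘ₗ R.par B = R.par D ∘ₗ R.map f :=
  LinearMap.ext fun x => R.map_par f x

variable [DecidableEq ι] [RightRigidCategory C]

/-- For an endomorphism of a tensor product, the sums of the contractions with respect to all
factors but one, over the factors `A j`. -/
noncomputable def Phi : ∀ w : List ι, (word A w ⟶ word A w) → ∀ j, (A j ⟶ A j)
  | [], _ => 0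
  | i :: w, z =>
      Pi.single i (SuperRealization.contraction (A := A i) (B := word A w) ((word A w)ᘁ) z) +
      Phi w (contractLeft (A := A i) (B := word A w) z)

theorem Phi_cons (i : ι) (w : List ι) (z : word A (i :: w) ⟶ word A (i :: w)) :
    Phi A (i :: w) z =
      Pi.single i (SuperRealization.contraction (A := A i) (B := word A w) ((word A w)ᘁ) z) +
      Phi A w (contractLeft (A := A i) (B := word A w) z) := rfl

theorem trace_Phi [Fintype ι] (h2 : (2 : K) ≠ 0) {X : ∀ i, R.H (A i) →ₗ[K] R.H (A i)}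
    (hX : IsEvenFam R A X) (w : List ι) (z : word A w ⟶ word A w)
    (T : R.H (word A w) →ₗ[K] R.H (word A w)) (hz : R.map z = R.par _ ∘ₗ T) :
    ∑ j, LinearMap.trace K _ (R.par (A j) ∘ₗ R.map (Phi A w z j) ∘ₗ X j) =
      LinearMap.trace K _ (T ∘ₗ DD R A X w) := by
  induction w with
  | nil => simp [Phi, DD, map_zero_eq]
  | cons i w ih =>
    have hp : R.par (A i ⊗ word A w) = tm R (R.par (A i)) (R.par (word A w)) := par_eq R _ _
    have hsum : ∀ j, LinearMap.trace K _ (R.par (A j) ∘ₗ R.map (Phi A (i :: w) z j) ∘ₗ X j) =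
        LinearMap.trace K _ (R.par (A j) ∘ₗ R.map ((Pi.single i
          (SuperRealization.contraction (A := A i) (B := word A w) ((word A w)ᘁ) z) :
            ∀ j, (A j ⟶ A j)) j) ∘ₗ X j) +
        LinearMap.trace K _ (R.par (A j) ∘ₗ R.map (Phi A w (contractLeft (A := A i) (B := word A w) z) j) ∘ₗ X j) := by
      intro j
      rw [Phi_cons, Pi.add_apply, map_add_eq, LinearMap.add_comp, LinearMap.comp_add, map_add]
    have h1 : ∑ j, LinearMap.trace K _ (R.par (A j) ∘ₗ R.map ((Pi.single i
          (SuperRealization.contraction (A := A i) (B := word A w) ((word A w)ᘁ) z) :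
            ∀ j, (A j ⟶ A j)) j) ∘ₗ X j) =
        LinearMap.trace K (R.H (A i ⊗ word A w)) (T ∘ₗ tm R (X i) LinearMap.id) := by
      rw [Finset.sum_eq_single i]
      · rw [Pi.single_eq_same, LinearMap.trace_comp_comm', LinearMap.comp_assoc,
          trace_contraction R h2, hz, hp]
        have e1 : tm R (LinearMap.id : R.H (A i) →ₗ[K] R.H (A i)) (R.par (word A w)) ∘ₗ
            (tm R (R.par (A i)) (R.par (word A w)) ∘ₗ T) ∘ₗ
              tm R (X i ∘ₗ R.par (A i)) (LinearMap.id : R.H (word A w) →ₗ[K] _) =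
            tm R (R.par (A i)) (LinearMap.id : R.H (word A w) →ₗ[K] _) ∘ₗ (T ∘ₗ
              tm R (X i ∘ₗ R.par (A i)) (LinearMap.id : R.H (word A w) →ₗ[K] _)) := by
          calc _ = (tm R (LinearMap.id : R.H (A i) →ₗ[K] R.H (A i)) (R.par (word A w)) ∘ₗ
                tm R (R.par (A i)) (R.par (word A w))) ∘ₗ (T ∘ₗ
                  tm R (X i ∘ₗ R.par (A i)) (LinearMap.id : R.H (word A w) →ₗ[K] _)) := rfl
            _ = _ := by rw [tm_comp, par_comp_par, LinearMap.id_comp]
        rw [e1, LinearMap.trace_comp_comm', LinearMap.comp_assoc, tm_comp, LinearMap.comp_assoc,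
          par_comp_par, LinearMap.comp_id, LinearMap.comp_id]
      · intro j _ hj
        rw [Pi.single_eq_of_ne hj, map_zero_eq]
        simp
      · intro h
        exact absurd (Finset.mem_univ i) h
    have h3 := ih (contractLeft (A := A i) (B := word A w) z) (R.par _ ∘ₗ R.map (contractLeft (A := A i) (B := word A w) z)) (by
      rw [← LinearMap.comp_assoc, par_comp_par, LinearMap.id_comp])
    have hDD : ∀ x, (DD R A X w ∘ₗ R.par (word A w)) (R.par (word A w) x) =
        R.par (word A w) ((DD R A X w ∘ₗ R.par (word A w)) x) := by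
      intro x
      simp only [LinearMap.comp_apply, DD_par R A hX]
    have h4 : LinearMap.trace K _ ((R.par (word A w) ∘ₗ R.map (contractLeft (A := A i) (B := word A w) z)) ∘ₗ DD R A X w) =
        LinearMap.trace K (R.H (A i ⊗ word A w)) (T ∘ₗ tm R LinearMap.id (DD R A X w)) := by
      rw [LinearMap.comp_assoc, LinearMap.trace_comp_comm', LinearMap.comp_assoc,
        trace_contractLeft R h2 z _ hDD, hz, hp]
      have e1 : tm R (R.par (A i)) (LinearMap.id : R.H (word A w) →ₗ[K] R.H (word A w)) ∘ₗ
          (tm R (R.par (A i)) (R.par (word A w)) ∘ₗ T) ∘ₗ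
            tm R (LinearMap.id : R.H (A i) →ₗ[K] _) (DD R A X w ∘ₗ R.par (word A w)) =
          tm R (LinearMap.id : R.H (A i) →ₗ[K] _) (R.par (word A w)) ∘ₗ (T ∘ₗ
            tm R (LinearMap.id : R.H (A i) →ₗ[K] _) (DD R A X w ∘ₗ R.par (word A w))) := by
        calc _ = (tm R (R.par (A i)) (LinearMap.id : R.H (word A w) →ₗ[K] R.H (word A w)) ∘ₗ
              tm R (R.par (A i)) (R.par (word A w))) ∘ₗ (T ∘ₗ
                tm R (LinearMap.id : R.H (A i) →ₗ[K] _) (DD R A X w ∘ₗ R.par (word A w))) := rfl
          _ = _ := by rw [tm_comp, par_comp_par, LinearMap.id_comp]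
      rw [e1, LinearMap.trace_comp_comm', LinearMap.comp_assoc, tm_comp, LinearMap.comp_assoc,
        par_comp_par, LinearMap.comp_id, LinearMap.comp_id]
    rw [Finset.sum_congr rfl fun j _ => hsum j, Finset.sum_add_distrib, h1, h3, h4, DD_cons,
      LinearMap.comp_add, map_add]

end Pool.Agent.Helper59.SD
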