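import Pool.Agent.Helper59.SD.Cat

/-!
# The operators on tensor products over words
-/

set_option autoImplicit false

namespace Pool.Agent.Helper59.SD

open CategoryTheory MonoidalCategory TensorProduct
open Pool.Agent.Results.MP_eadf0f_ag.TensorDescent

universe w v u t

variable {F K : Type w} [Field F] [Field K] [Algebra F K] {C : Type u}
    [Category.{v} C] [Preadditive C] [Linear F C] [MonoidalCategory C] [SymmetricCategory C]
    (R : SuperRealization F K C) {ι : Type t} (A : ι → C)

/-- The operator `∑ X_i` on a tensor product: the sum over the factors of the operators `X i`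
acting on one factor. -/
noncomputable def DD (X : ∀ i, R.H (A i) →ₗ[K] R.H (A i)) :
    ∀ w : List ι, R.H (word A w) →ₗ[K] R.H (word A w)
  | [] => 0
  | i :: w => tm R (X i) (LinearMap.id : R.H (word A w) →ₗ[K] R.H (word A w)) +
      tm R (LinearMap.id : R.H (A i) →ₗ[K] R.H (A i)) (DD X w)

theorem DD_cons (X : ∀ i, R.H (A i) →ₗ[K] R.H (A i)) (i : ι) (w : List ι) :
    DD R A X (i :: w) = tm R (X i) (LinearMap.id : R.H (word A w) →ₗ[K] R.H (word A w)) +
      tm R (LinearMap.id : R.H (A i) →ₗ[K] R.H (A i)) (DD R A X w) := rfl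

/-- A family of even operators. -/
def IsEvenFam (X : ∀ i, R.H (A i) →ₗ[K] R.H (A i)) : Prop :=
  ∀ i x, X i (R.par (A i) x) = R.par (A i) (X i x)

theorem DD_par {X : ∀ i, R.H (A i) →ₗ[K] R.H (A i)} (hX : IsEvenFam R A X) (w : List ι)
    (x : R.H (word A w)) :
    DD R A X w (R.par (word A w) x) = R.par (word A w) (DD R A X w x) := by
  induction w with
  | nil => simp [DD]
  | cons i w ih =>
    have h : (tm R (X i) LinearMap.id + tm R LinearMap.id (DD R A X w)) ∘ₗ
        R.par (A i ⊗ word A w) = R.par (A i ⊗ word A w) ∘ₗ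
          (tm R (X i) LinearMap.id + tm R LinearMap.id (DD R A X w)) := by
      have hp : R.par (A i ⊗ word A w) = tm R (R.par (A i)) (R.par (word A w)) := par_eq R _ _
      have h1 : X i ∘ₗ R.par (A i) = R.par (A i) ∘ₗ X i := LinearMap.ext fun x => hX i x
      have h2 : DD R A X w ∘ₗ R.par (word A w) = R.par (word A w) ∘ₗ DD R A X w :=
        LinearMap.ext fun x => ih x
      rw [hp, LinearMap.add_comp, LinearMap.comp_add, tm_comp, tm_comp, tm_comp, tm_comp, h1, h2]
      simp only [LinearMap.id_comp, LinearMap.comp_id]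
    exact LinearMap.congr_fun h x

/-- The exchange of the first two factors of `P ⊗ (Q ⊗ W)`. -/
def ex (P Q W : C) : P ⊗ (Q ⊗ W) ⟶ Q ⊗ (P ⊗ W) :=
  (α_ P Q W).inv ≫ (β_ P Q).hom ▷ W ≫ (α_ Q P W).hom

theorem ex_mul (P Q W : C) (x : R.H P) (y : R.H Q) (r : R.H W) :
    R.map (ex P Q W) (R.mul x (R.mul y r)) =
      R.map (α_ Q P W).hom (R.mul (R.map (β_ P Q).hom (R.mul x y)) r) := by
  rw [ex, R.map_comp, R.map_comp, R.map_associator_inv, R.map_whiskerRight]

theorem mul_mul_ext {P Q W : C} {M : Type w} [AddCommGroup M] [Module K M]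
    {f g : R.H (P ⊗ (Q ⊗ W)) →ₗ[K] M}
    (h : ∀ x y r, f (R.mul x (R.mul y r)) = g (R.mul x (R.mul y r))) : f = g := by
  refine mul_ext R fun x y' => ?_
  have h1 : f ∘ₗ R.mul x = g ∘ₗ R.mul x := mul_ext R fun y r => h x y r
  exact LinearMap.congr_fun h1 y'

/-- The exchange of two factors commutes with the sum over the factors of even operators. -/
theorem ex_tm (h2 : (2 : K) ≠ 0) (P Q W : C) (f : R.H P →ₗ[K] R.H P) (g : R.H Q →ₗ[K] R.H Q)
    (h : R.H W →ₗ[K] R.H W) (hf : ∀ x, f (R.par P x) = R.par P (f x))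
    (hg : ∀ x, g (R.par Q x) = R.par Q (g x)) :
    R.map (ex P Q W) ∘ₗ (tm R f LinearMap.id +
      tm R LinearMap.id (tm R g LinearMap.id + tm R LinearMap.id h)) =
    (tm R g LinearMap.id + tm R LinearMap.id (tm R f LinearMap.id + tm R LinearMap.id h)) ∘ₗ
      R.map (ex P Q W) := by
  have hβ := braiding_tm R h2 f (LinearMap.id : R.H Q →ₗ[K] R.H Q) hf (fun _ => rfl)
  have hβ' := braiding_tm R h2 (LinearMap.id : R.H P →ₗ[K] R.H P) g (fun _ => rfl) hg
  refine mul_mul_ext R fun x y r => ?_
  have hE : ∀ z : R.H (Q ⊗ P),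
      (tm R g LinearMap.id + tm R LinearMap.id (tm R f LinearMap.id + tm R LinearMap.id h) :
        R.H (Q ⊗ (P ⊗ W)) →ₗ[K] R.H (Q ⊗ (P ⊗ W))) (R.map (α_ Q P W).hom (R.mul z r)) =
      R.map (α_ Q P W).hom
        (R.mul (tm R g LinearMap.id z) r + R.mul (tm R LinearMap.id f z) r + R.mul z (h r)) := by
    intro z
    have : (tm R g LinearMap.id + tm R LinearMap.id (tm R f LinearMap.id + tm R LinearMap.id h)) ∘ₗ
        R.map (α_ Q P W).hom ∘ₗ (R.mul (A := Q ⊗ P) (B := W)).flip r =
        R.map (α_ Q P W).hom ∘ₗ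
          ((R.mul (A := Q ⊗ P) (B := W)).flip r ∘ₗ tm R g LinearMap.id +
          (R.mul (A := Q ⊗ P) (B := W)).flip r ∘ₗ tm R LinearMap.id f +
          (R.mul (A := Q ⊗ P) (B := W)).flip (h r)) := by
      refine mul_ext R fun a b => ?_
      simp only [LinearMap.comp_apply, LinearMap.flip_apply, LinearMap.add_apply, tm_mul,
        LinearMap.id_apply, map_add, R.map_associator]
      abel
    exact LinearMap.congr_fun this z
  have b1 : R.map (β_ P Q).hom (R.mul (f x) y) = tm R LinearMap.id f (R.map (β_ P Q).hom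
      (R.mul x y)) := by
    have := LinearMap.congr_fun hβ (R.mul x y)
    simpa only [LinearMap.comp_apply, tm_mul, LinearMap.id_apply] using this
  have b2 : R.map (β_ P Q).hom (R.mul x (g y)) = tm R g LinearMap.id (R.map (β_ P Q).hom
      (R.mul x y)) := by
    have := LinearMap.congr_fun hβ' (R.mul x y)
    simpa only [LinearMap.comp_apply, tm_mul, LinearMap.id_apply] using this
  rw [LinearMap.comp_apply, LinearMap.comp_apply, ex_mul, hE]
  simp only [LinearMap.add_apply, tm_mul, LinearMap.id_apply, map_add, ex_mul, b1, b2]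
  abel

theorem exchange_DD (h2 : (2 : K) ≠ 0) {X : ∀ i, R.H (A i) →ₗ[K] R.H (A i)}
    (hX : IsEvenFam R A X) (i j : ι) (w : List ι) (x : R.H (word A (i :: j :: w))) :
    R.map (exchange A i j w) (DD R A X (i :: j :: w) x) =
      DD R A X (j :: i :: w) (R.map (exchange A i j w) x) :=
  LinearMap.congr_fun (ex_tm R h2 (A i) (A j) (word A w) (X i) (X j) (DD R A X w) (hX i) (hX j)) x

/-- Combinations of permutations commute with the sums over the factors of even operators. -/
theorem isPerm_DD (h2 : (2 : K) ≠ 0) {X : ∀ i, R.H (A i) →ₗ[K] R.H (A i)}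
    (hX : IsEvenFam R A X) {w w' : List ι} (f : word A w ⟶ word A w') (hf : IsPerm F A f)
    (x : R.H (word A w)) :
    R.map f (DD R A X w x) = DD R A X w' (R.map f x) := by
  induction hf with
  | id w => rw [R.map_id, R.map_id]
  | exchange i j w => exact exchange_DD R A h2 hX i j w x
  | @cons i w w' f _ ih =>
    have h1 : R.map f ∘ₗ DD R A X w = DD R A X w' ∘ₗ R.map f := LinearMap.ext fun x => ih x
    have h3 : R.map (A i ◁ f) ∘ₗ (tm R (X i) LinearMap.id + tm R LinearMap.id (DD R A X w)) =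
        (tm R (X i) LinearMap.id + tm R LinearMap.id (DD R A X w')) ∘ₗ R.map (A i ◁ f) := by
      rw [map_whiskerLeft_eq, LinearMap.comp_add, LinearMap.add_comp, tm_comp, tm_comp, tm_comp,
        tm_comp, h1]
      simp only [LinearMap.id_comp, LinearMap.comp_id]
    exact LinearMap.congr_fun h3 x
  | comp f g _ _ ihf ihg => rw [R.map_comp, R.map_comp, ihf, ihg]
  | add f g _ _ ihf ihg => rw [R.map_add, R.map_add, ihf, ihg, map_add]
  | smul c f _ ih => rw [R.map_smul, R.map_smul, ih, map_smul]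

end Pool.Agent.Helper59.SD
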